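import Pool.Agent.H384R3.SPk.Defs2

/-! TaskG of project SPK384: sign reduction. -/

set_option autoImplicit false

open Finset

namespace Pool.Agent.H201R3.SPk

open Pool.Agent.H384R3.SPk

theorem sumset_mono {A B : Finset ℤ} (h : B ⊆ A) (k : ℕ) : sumset k B ⊆ sumset k A := by
  unfold sumset
  apply Finset.image_subset_image
  intro f hf
  rw [Fintype.mem_piFinset] at hf ⊢
  exact fun i => h (hf i)

theorem prodset_mono {A B : Finset ℤ} (h : B ⊆ A) (n : ℕ) :
    (prodset fun _ : Fin n => B) ⊆ (prodset fun _ : Fin n => A) := by
  unfold prodset
  apply Finset.image_subset_image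
  intro f hf
  rw [Fintype.mem_piFinset] at hf ⊢
  exact fun i => h (hf i)

theorem sumset_neg (Q : Finset ℤ) (k : ℕ) :
    (sumset k (Q.image fun x => -x)).card ≤ (sumset k Q).card := by
  have h : sumset k (Q.image fun x => -x) ⊆ (sumset k Q).image fun x => -x := by
    intro y hy
    unfold sumset at hy
    rw [Finset.mem_image] at hy
    obtain ⟨f, hf, rfl⟩ := hy
    rw [Fintype.mem_piFinset] at hf
    rw [Finset.mem_image]
    refine ⟨∑ i, -f i, ?_, ?_⟩
    · unfold sumset
      rw [Finset.mem_image]
      refine ⟨fun i => -f i, ?_, rfl⟩
      rw [Fintype.mem_piFinset]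
      intro i
      obtain ⟨q, hq, hqe⟩ := Finset.mem_image.mp (hf i)
      have : -f i = q := by
        rw [← hqe]
        ring
      rw [this]
      exact hq
    · rw [Finset.sum_neg_distrib]
      ring
  exact (Finset.card_le_card h).trans Finset.card_image_le

theorem prodset_neg (Q : Finset ℤ) (n : ℕ) :
    (prodset fun _ : Fin n => Q.image fun x => -x).card ≤ (prodset fun _ : Fin n => Q).card := by
  have h : (prodset fun _ : Fin n => Q.image fun x => -x) ⊆
      (prodset fun _ : Fin n => Q).image fun x => (-1) ^ n * x := by
    intro y hy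
    unfold prodset at hy
    rw [Finset.mem_image] at hy
    obtain ⟨f, hf, rfl⟩ := hy
    rw [Fintype.mem_piFinset] at hf
    rw [Finset.mem_image]
    refine ⟨∏ i, -f i, ?_, ?_⟩
    · unfold prodset
      rw [Finset.mem_image]
      refine ⟨fun i => -f i, ?_, rfl⟩
      rw [Fintype.mem_piFinset]
      intro i
      obtain ⟨q, hq, hqe⟩ := Finset.mem_image.mp (hf i)
      have : -f i = q := by
        rw [← hqe]
        ring
      rw [this]
      exact hq
    · rw [Finset.prod_neg]
      rw [Finset.card_univ, Fintype.card_fin, ← mul_assoc, ← mul_pow]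
      norm_num
  exact (Finset.card_le_card h).trans Finset.card_image_le

theorem taskG : TaskG := by
  intro A hA hA0
  set P := A.filter (fun a => 0 < a) with hP
  set Q := A.filter (fun a => a < 0) with hQ
  have hcard : A.card ≤ P.card + Q.card + 1 := by
    have hsub : A ⊆ (P ∪ Q) ∪ {0} := by
      intro a ha
      rcases lt_trichotomy a 0 with h | h | h
      · simp [hQ, ha, h]
      · simp [h]
      · simp [hP, ha, h]
    calc A.card ≤ ((P ∪ Q) ∪ {0}).card := Finset.card_le_card hsub
      _ ≤ (P ∪ Q).card + ({0} : Finset ℤ).card := Finset.card_union_le _ _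
      _ ≤ P.card + Q.card + 1 := by
          have := Finset.card_union_le P Q
          simp only [Finset.card_singleton]
          omega
  have hmax : 1 ≤ P.card ∨ 1 ≤ Q.card := by
    by_contra hcon
    push Not at hcon
    have hP0 : P = ∅ := by
      rw [← Finset.card_eq_zero]
      omega
    have hQ0 : Q = ∅ := by
      rw [← Finset.card_eq_zero]
      omega
    apply hA0
    have hall : ∀ a ∈ A, a = 0 := by
      intro a ha
      rcases lt_trichotomy a 0 with h | h | h
      · have : a ∈ Q := by simp [hQ, ha, h]
        rw [hQ0] at this
        simp at this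
      · exact h
      · have : a ∈ P := by simp [hP, ha, h]
        rw [hP0] at this
        simp at this
    obtain ⟨a, ha⟩ := hA
    ext x
    rw [Finset.mem_singleton]
    constructor
    · exact hall x
    · intro hx
      rw [hx, ← hall a ha]
      exact ha
  rcases le_total Q.card P.card with hle | hle
  · refine ⟨P, ?_, ?_, ?_, ?_, ?_⟩
    · rw [← Finset.card_pos]
      omega
    · intro b hb
      exact (Finset.mem_filter.mp hb).2
    · omega
    · intro k
      exact Finset.card_le_card (sumset_mono (Finset.filter_subset _ _) k)
    · intro n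
      exact Finset.card_le_card (prodset_mono (Finset.filter_subset _ _) n)
  · have hinj : (Q.image fun x => -x).card = Q.card :=
      Finset.card_image_of_injective _ neg_injective
    refine ⟨Q.image fun x => -x, ?_, ?_, ?_, ?_, ?_⟩
    · rw [← Finset.card_pos, hinj]
      omega
    · intro b hb
      obtain ⟨q, hq, rfl⟩ := Finset.mem_image.mp hb
      have := (Finset.mem_filter.mp hq).2
      omega
    · rw [hinj]
      omega
    · intro k
      exact (sumset_neg Q k).trans
        (Finset.card_le_card (sumset_mono (Finset.filter_subset _ _) k))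
    · intro n
      exact (prodset_neg Q n).trans
        (Finset.card_le_card (prodset_mono (Finset.filter_subset _ _) n))

end Pool.Agent.H201R3.SPk
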